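import Pool.Agent.H28.CycleCoverGraph
import Pool.Agent.H28.CycleCoverUpper
import Pool.Agent.H28.CycleCoverLower

set_option autoImplicit false
open Classical

namespace Pool.Agent.Results.MP_c57e60_co.MoreThanTwo

/-- `F` is a cycle cover of `G`: a list of cycles (repetitions allowed) such that every edge lies
in at least one member. -/
def IsCycleCover {V : Type} (G : SimpleGraph V) (F : List (Σ u : V, G.Walk u u)) : Prop :=
  (∀ c ∈ F, c.2.IsCycle) ∧ ∀ e ∈ G.edgeSet, ∃ c ∈ F, e ∈ c.2.edges

/-- the total length of `F` -/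
def coverLength {V : Type} {G : SimpleGraph V} (F : List (Σ u : V, G.Walk u u)) : ℕ :=
  (F.map (fun c => c.2.length)).sum

/-- `F` is a cycle cover of minimum total length -/
def IsShortestCycleCover {V : Type} (G : SimpleGraph V) (F : List (Σ u : V, G.Walk u u)) : Prop :=
  IsCycleCover G F ∧ ∀ F', IsCycleCover G F' → coverLength F ≤ coverLength F'

/-- the number of members of `F` that contain the edge `e` -/
noncomputable def mult {V : Type} {G : SimpleGraph V} (F : List (Σ u : V, G.Walk u u))
    (e : Sym2 V) : ℕ :=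
  F.countP (fun c => decide (e ∈ c.2.edges))

/-- 3-connected: more than three vertices, and connected after the removal of any set of fewer
than three vertices -/
def ThreeConnected {V : Type} [Fintype V] (G : SimpleGraph V) : Prop :=
  3 < Fintype.card V ∧ ∀ S : Finset V, S.card < 3 → (G.induce ((↑S : Set V)ᶜ)).Connected

/-- There is a 3-connected graph all of whose shortest cycle covers use some edge at least three
times (and it has shortest cycle covers). -/
theorem result : ∃ G : SimpleGraph (Fin 30), ThreeConnected G ∧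
    (∃ F, IsShortestCycleCover G F) ∧
    ∀ F, IsShortestCycleCover G F → ∃ e ∈ G.edgeSet, 3 ≤ mult F e := by
  refine ⟨H28.CC.G, ⟨by simp, fun S hS => H28.CC.three_connected S hS⟩, ?_, ?_⟩
  · have hex : ∃ n : ℕ, ∃ F, IsCycleCover H28.CC.G F ∧ coverLength F = n :=
      ⟨_, H28.CC.F0, ⟨H28.CC.F0_cycle, H28.CC.F0_cover⟩, rfl⟩
    obtain ⟨F, hF, hn⟩ := Nat.find_spec hex
    refine ⟨F, hF, fun F' hF' => ?_⟩
    rw [hn]
    exact Nat.find_min' hex ⟨F', hF', rfl⟩
  · rintro F ⟨⟨hcyc, hcov⟩, hmin⟩
    by_contra hcon
    push Not at hcon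
    have hlen := hmin H28.CC.F0 ⟨H28.CC.F0_cycle, H28.CC.F0_cover⟩
    unfold coverLength at hlen
    rw [H28.CC.F0_length] at hlen
    refine H28.CC.lower F hcyc
      (fun e => ∑ k : Fin F.length, H28.CC.ind (e ∈ (F.get k).2.edges))
      (fun _ => rfl) ?_ ?_ hlen
    · intro e he
      obtain ⟨c, hc, hec⟩ := hcov e he
      have h1 : 0 < F.countP (fun c => decide (e ∈ c.2.edges)) :=
        List.countP_pos_iff.mpr ⟨c, hc, by simpa using hec⟩
      rw [H28.CC.countP_eq_sum] at h1
      simp only [decide_eq_true_eq] at h1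
      exact h1
    · intro e he
      have h1 := hcon e he
      unfold mult at h1
      rw [H28.CC.countP_eq_sum] at h1
      simp only [decide_eq_true_eq] at h1
      exact Nat.le_of_lt_succ h1

end Pool.Agent.Results.MP_c57e60_co.MoreThanTwo
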